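import Pool.Agent.Lib.MP_d4d38b_gt.Angle

/-!
MP_d4d38b_gt (Kapouleas-Li versus Ketover free boundary minimal surfaces in the ball).

Two connected properly embedded minimal surfaces of the unit ball which pass through the centre
and are invariant under the dihedral group of order `4 n` (`n = g + 1`) of the
Costa-Hoffman-Meeks surface of genus `g` have `n` diameters in common. They are congruent under
`O(3)` if and only if they are equal or mirror images of each other in the equatorial plane, and
if and only if at points of one common diameter which accumulate somewhere in the open diameter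
their tangent planes make the same angle with the equatorial plane.
-/

namespace Pool.Agent.Results.MP_d4d38b_gt.CongruenceCriterion

open Set Metric Filter Topology Pool.Agent.MP_d4d38b

/-- the group `O(3)` -/
abbrev O3 : Type := E3 ≃ₗᵢ[ℝ] E3

/-- the image of a point under an element of `O(3)` -/
noncomputable def act (Q : O3) (p : E3) : E3 := Q p

/-- the first two coordinates of `p` in the orthonormal frame `Q` -/
noncomputable def foot (Q : O3) (p : E3) : ℝ × ℝ := (act Q p 0, act Q p 1)

/-- the third coordinate of `p` in the orthonormal frame `Q` -/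
noncomputable def height (Q : O3) (p : E3) : ℝ := act Q p 2

/-- In the orthonormal frame `Q`, and in the box of half side `δ` centred at `p`, the set `A` is
the graph of a real analytic solution `u` of the minimal surface equation `MSE`, and this graph
is at `p` tangent to the plane of the first two axes of the frame. (The balls of `ℝ × ℝ` are
squares, `dx` and `dy` are the partial derivatives.) -/
structure MinimalGraph (A : Set E3) (p : E3) (Q : O3) (δ : ℝ) (u : ℝ × ℝ → ℝ) : Prop where
  pos : 0 < δ
  analytic : AnalyticOnNhd ℝ u (ball (foot Q p) δ)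
  mse : ∀ w ∈ ball (foot Q p) δ, MSE u w
  slope : dx u (foot Q p) = 0 ∧ dy u (foot Q p) = 0
  graph : ∀ q : E3, foot Q q ∈ ball (foot Q p) δ → |height Q q - height Q p| < δ →
    (q ∈ A ↔ height Q q = u (foot Q q))

/-- `A` is a connected, properly embedded (real analytic) minimal surface of the open unit ball,
together with its limit points on the sphere: `A` is the closure of its part in the open ball,
this part is connected, and near each of its points it is a minimal graph over the tangent
plane. -/
structure MinimalSurface (A : Set E3) : Prop where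
  closure_eq : closure (A ∩ ball (0 : E3) 1) = A
  connected : IsPreconnected (A ∩ ball (0 : E3) 1)
  local_graph : ∀ p ∈ A ∩ ball (0 : E3) 1, ∃ (Q : O3) (δ : ℝ) (u : ℝ × ℝ → ℝ),
    MinimalGraph A p Q δ u

/-- congruence under `O(3)` -/
def CongruentO3 (A B : Set E3) : Prop := ∃ h : O3, act h '' A = B

/-- `A` contains the `n` diameters of the unit ball in the plane `z = 0` which make the angles
`j π / n` with the `x`-axis -/
def ContainsDiameters (n : ℕ) (A : Set E3) : Prop := ∀ (j : ℕ) (t : ℝ), |t| ≤ 1 →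
  vec (t * Real.cos (j * (Real.pi / n))) (t * Real.sin (j * (Real.pi / n))) 0 ∈ A

/-- `c` is the cosine of the angle (between `0` and `π / 2`) which the tangent plane of `A` at
the point `(t, 0, 0)` makes with the plane `z = 0`: the absolute value of the scalar product of
`(0, 0, 1)` and the unit normal, which is the third axis of the frame `Q`. -/
def AngleCosine (A : Set E3) (t c : ℝ) : Prop :=
  ∃ (Q : O3) (δ : ℝ) (u : ℝ × ℝ → ℝ),
    MinimalGraph A (vec t 0 0) Q δ u ∧ c = |height Q (vec 0 0 1)|

/-- at points `(t, 0, 0)` which accumulate at some point `(t₀, 0, 0)`, `-1 < t₀ < 1`, the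
surfaces `A` and `B` make the same angle with the plane `z = 0` -/
def AnglesAgree (A B : Set E3) : Prop :=
  ∃ t₀ ∈ Ioo (-1 : ℝ) 1, ∃ᶠ t in 𝓝[≠] t₀, ∃ c, AngleCosine A t c ∧ AngleCosine B t c

lemma graph_iff {A : Set E3} {p : E3} {Q : O3} {δ : ℝ} {u : ℝ × ℝ → ℝ} :
    MinimalGraph A p Q δ u ↔ GraphAt A p Q δ u := by
  constructor
  · intro h
    exact ⟨h.pos, h.analytic, h.mse, h.slope, fun q h0 h1 h2 =>
      h.graph q (mem_box.2 ⟨h0, h1⟩) h2⟩
  · intro h
    exact ⟨h.pos, h.analytic, h.mse, h.slope, fun q h0 h2 =>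
      h.graph q (mem_box.1 h0).1 (mem_box.1 h0).2 h2⟩

lemma isSurface {A : Set E3} (h : MinimalSurface A) : IsSurface A :=
  ⟨h.closure_eq, h.connected, fun p hp => by
    obtain ⟨Q, δ, u, g⟩ := h.local_graph p hp
    exact ⟨Q, δ, u, graph_iff.1 g⟩⟩

lemma symm_coord (Q : O3) : Q.symm (vec 0 0 1) 2 = height Q (vec 0 0 1) := by
  have h1 : inner ℝ (Q.symm (vec 0 0 1)) (vec 0 0 1) = inner ℝ (vec 0 0 1) (Q (vec 0 0 1)) := by
    rw [← Q.inner_map_map, Q.apply_symm_apply]
  rw [inner3, inner3] at h1
  simpa [height, act] using h1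

lemma angle_iff {A : Set E3} {t c : ℝ} : AngleCosine A t c ↔ AngleCos A t c := by
  constructor
  · rintro ⟨Q, δ, u, g, hc⟩
    exact ⟨Q, δ, u, graph_iff.1 g, by rw [symm_coord]; exact hc⟩
  · rintro ⟨Q, δ, u, g, hc⟩
    exact ⟨Q, δ, u, graph_iff.2 g, by rw [← symm_coord]; exact hc⟩

lemma existsUnique_angle {n : ℕ} (hn : 2 ≤ n) {A : Set E3} (hA : IsSurface A)
    (gA : Antiprism n A) (zA : (0 : E3) ∈ A) (t : ℝ) (ht : |t| < 1) :
    ∃! c, AngleCosine A t c := by
  obtain ⟨m, -, w, -⟩ := exists_angle hn hA gA zA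
  have htb : t ∈ ball (0 : ℝ) 1 := by simpa using ht
  obtain ⟨Q, δ, u, g⟩ := hA.local_graph _ ⟨axis_subset hn hA gA zA t ht.le, vec_mem_unit ht⟩
  refine ⟨|Q.symm (vec 0 0 1) 2|, angle_iff.2 ⟨Q, δ, u, g, rfl⟩, ?_⟩
  intro c hc
  obtain ⟨Q', δ', u', g', rfl⟩ := angle_iff.1 hc
  have h1 := w t htb Q δ u g
  have h2 := w t htb Q' δ' u' g'
  exact (sq_eq_sq_iff_abs_eq_abs _ _).1 (by rw [h1, h2])

theorem result (n : ℕ) (hn : 2 ≤ n) (A B : Set E3) (hA : MinimalSurface A)
    (hB : MinimalSurface B) (gA : Antiprism n A) (gB : Antiprism n B) (zA : (0 : E3) ∈ A)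
    (zB : (0 : E3) ∈ B) :
    ContainsDiameters n (A ∩ B) ∧
    (∀ t : ℝ, |t| < 1 → (∃! c, AngleCosine A t c) ∧ ∃! c, AngleCosine B t c) ∧
    List.TFAE [CongruentO3 A B, B = A ∨ B = mirror '' A, AnglesAgree A B] := by
  have sA := isSurface hA
  have sB := isSurface hB
  refine ⟨fun j t ht => ⟨diameters hn sA gA zA j t ht, diameters hn sB gB zB j t ht⟩,
    fun t ht => ⟨existsUnique_angle hn sA gA zA t ht, existsUnique_angle hn sB gB zB t ht⟩, ?_⟩
  have e1 : CongruentO3 A B ↔ Congruent A B := Iff.rfl
  have e3 : AnglesAgree A B ↔ ∃ t₀ ∈ Ioo (-1 : ℝ) 1, ∃ᶠ t in 𝓝[≠] t₀,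
      ∃ c, AngleCos A t c ∧ AngleCos B t c := by
    unfold AnglesAgree
    simp only [angle_iff]
  tfae_have 1 ↔ 2 := e1.trans (congruent_iff hn sA sB gA gB zA zB)
  tfae_have 1 ↔ 3 := by rw [e1, e3]; exact congruent_iff_angle hn sA sB gA gB zA zB
  tfae_finish

end Pool.Agent.Results.MP_d4d38b_gt.CongruenceCriterion
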